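import Mathlib

open Filter Topology Set Metric Complex

namespace Pool.Agent.H.MP_bc0aea_an

section
variable {X : Type*} [NormedAddCommGroup X] [NormedSpace ℂ X] [CompleteSpace X]
  (B S : X →L[ℂ] X) (hBS : B * S = 1) (hB : ‖B‖ ≤ 1) (hS : ‖S‖ ≤ 1)
  (h0 : ∀ x, Tendsto (fun m => (B ^ m) x) atTop (𝓝 0))

noncomputable def A (z : ℂ) : X →L[ℂ] X := z • 1 - B

omit [CompleteSpace X] in
theorem A_apply (z : ℂ) (x : X) : A B z x = z • x - B x := rfl

omit [CompleteSpace X] in
theorem A_diff (k : ℕ) : Differentiable ℂ (fun z => A B z ^ k) := by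
  unfold A; fun_prop

omit [CompleteSpace X] in
theorem npow {T : X →L[ℂ] X} {c : ℝ} (h : ‖T‖ ≤ c) (k : ℕ) (x : X) : ‖(T ^ k) x‖ ≤ c ^ k * ‖x‖ := by
  induction k with
  | zero => simp
  | succ k ih =>
    rw [pow_succ', ContinuousLinearMap.mul_apply, pow_succ', mul_assoc]
    exact (T.le_of_opNorm_le h _).trans (mul_le_mul_of_nonneg_left ih ((norm_nonneg _).trans h))

omit [CompleteSpace X] in
include hBS in
theorem BS (m : ℕ) : B ^ m * S ^ m = 1 := by
  induction m with
  | zero => simp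
  | succ m ih => rw [pow_succ, pow_succ', mul_assoc, ← mul_assoc B, hBS, one_mul, ih]

omit [CompleteSpace X] in
include hBS hB hS h0 in
theorem dense1 {W K : Set ℂ} (hK : IsCompact K) (hKW : K ⊆ W) (hW : (0 : ℂ) ∉ W) (h : ℂ → X)
    (hh : DifferentiableOn ℂ h W) (ε : ℝ) (hε : 0 < ε) :
    ∃ f : ℂ → X, DifferentiableOn ℂ f W ∧ ∀ z ∈ K, ‖h z - A B z (f z)‖ ≤ ε := by
  have h1 : ∀ᶠ m in atTop, ∀ x ∈ h '' K, ‖(B ^ m) x‖ ≤ ε := by
    refine (hK.image_of_continuousOn (hh.continuousOn.mono hKW)).induction_on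
      (p := fun s => ∀ᶠ m in atTop, ∀ x ∈ s, ‖(B ^ m) x‖ ≤ ε) (by simp)
      (fun s t hst ht => ht.mono fun m hm x hx => hm x (hst hx))
      (fun s t hs ht => (hs.and ht).mono fun m hm x hx => hx.elim (hm.1 x) (hm.2 x)) fun x _ => ?_
    refine ⟨ball x (ε / 2), mem_nhdsWithin_of_mem_nhds (ball_mem_nhds x (by positivity)), ?_⟩
    filter_upwards [(h0 x).norm.eventually (gt_mem_nhds (by simpa using hε : ‖(0 : X)‖ < ε / 2))]
      with m hm y hy
    have h2 := npow hB m (y - x)
    rw [one_pow, one_mul, map_sub] at h2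
    rw [mem_ball, dist_eq_norm] at hy
    have := norm_add_le ((B ^ m) y - (B ^ m) x) ((B ^ m) x)
    rw [sub_add_cancel] at this
    linarith
  obtain ⟨m, hm⟩ := h1.exists
  let p : ℂ → X := fun z => h z - (S ^ m) ((B ^ m) (h z))
  have hp : DifferentiableOn ℂ p W := by
    simp only [p]; fun_prop
  refine ⟨fun z => ∑ k ∈ Finset.range m, (z⁻¹) ^ (k + 1) • (B ^ k) (p z), ?_, fun z hz => ?_⟩
  · refine DifferentiableOn.fun_sum fun k _ => DifferentiableOn.fun_smul ?_ (by fun_prop)
    exact (differentiableOn_inv.mono fun z hz h => hW (h ▸ hz)).pow _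
  · have hz0 : z ≠ 0 := fun h => hW (h ▸ hKW hz)
    have e1 : ∀ n, A B z (∑ k ∈ Finset.range n, (z⁻¹) ^ (k + 1) • (B ^ k) (p z)) =
        p z - (z⁻¹) ^ n • (B ^ n) (p z) := fun n => by
      induction n with
      | zero => simp
      | succ n ih =>
        rw [Finset.sum_range_succ, map_add, ih, map_smul, A_apply, smul_sub, smul_smul,
          pow_succ' B, ContinuousLinearMap.mul_apply, pow_succ, inv_mul_cancel_right₀ hz0]
        abel
    have e2 : (B ^ m) (p z) = 0 := by
      simp only [p, map_sub]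
      rw [← ContinuousLinearMap.mul_apply, BS B S hBS, ContinuousLinearMap.one_apply, sub_self]
    simp only
    rw [e1, e2, smul_zero, sub_zero]
    simp only [p, sub_sub_cancel]
    have := npow hS m ((B ^ m) (h z))
    rw [one_pow, one_mul] at this
    exact this.trans (hm _ ⟨z, hz, rfl⟩)

omit [CompleteSpace X] in
include hBS hS in
theorem dense2 {W K : Set ℂ} (hK : IsCompact K) (hKW : K ⊆ W) (hW : ∀ z ∈ K, ‖z‖ ≤ 1 / 2)
    (h : ℂ → X) (hh : DifferentiableOn ℂ h W) (ε : ℝ) (hε : 0 < ε) :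
    ∃ f : ℂ → X, DifferentiableOn ℂ f W ∧ ∀ z ∈ K, ‖h z - A B z (f z)‖ ≤ ε := by
  obtain ⟨C, hC⟩ := hK.exists_bound_of_continuousOn (hh.continuousOn.mono hKW)
  have l1 := (tendsto_pow_atTop_nhds_zero_of_lt_one (r := 1 / 2) (by norm_num)
    (by norm_num)).mul_const C
  rw [zero_mul] at l1
  obtain ⟨m, hm⟩ := (l1.eventually (gt_mem_nhds hε)).exists
  refine ⟨fun z => -∑ k ∈ Finset.range m, z ^ k • (S ^ (k + 1)) (h z), by fun_prop, fun z hz => ?_⟩
  have e1 : ∀ n, A B z (-∑ k ∈ Finset.range n, z ^ k • (S ^ (k + 1)) (h z)) =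
      h z - z ^ n • (S ^ n) (h z) := fun n => by
    induction n with
    | zero => simp
    | succ n ih =>
      have e : B ((S ^ (n + 1)) (h z)) = (S ^ n) (h z) := by
        rw [← ContinuousLinearMap.mul_apply, pow_succ', ← mul_assoc, hBS, one_mul]
      rw [Finset.sum_range_succ, neg_add, map_add, ih, map_neg, map_smul, A_apply, e, smul_sub,
        smul_smul, ← pow_succ]
      abel
  simp only
  rw [e1, sub_sub_cancel, norm_smul, norm_pow]
  have := npow hS m (h z)
  rw [one_pow, one_mul] at this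
  exact (mul_le_mul (pow_le_pow_left₀ (norm_nonneg _) (hW z hz) m) (this.trans (hC z hz))
    (norm_nonneg _) (by positivity)).trans hm.le

include hB in
theorem ml {W U : Set ℂ} (hU : IsOpen U) (hUW : U ⊆ W) (hU2 : ∀ z ∈ U, ‖z‖ ≤ 2)
    (hd : ∀ h : ℂ → X, DifferentiableOn ℂ h W → ∀ ε : ℝ, 0 < ε →
      ∃ f : ℂ → X, DifferentiableOn ℂ f W ∧ ∀ z ∈ U, ‖h z - A B z (f z)‖ ≤ ε)
    (g : ℕ → ℂ → X) (hg : ∀ n, DifferentiableOn ℂ (g n) W) :
    ∃ f : ℕ → ℂ → X, (∀ n, DifferentiableOn ℂ (f n) U) ∧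
      ∀ n, ∀ z ∈ U, f n z - A B z (f (n + 1) z) = g n z := by
  choose F hF1 hF2 using fun (m : ℕ) (y : {y : ℂ → X // DifferentiableOn ℂ y W}) =>
    hd (fun z => y.1 z - g m z) (y.2.sub (hg m)) ((1 / 6) ^ m) (by positivity)
  let y : ℕ → {y : ℂ → X // DifferentiableOn ℂ y W} := fun m =>
    Nat.rec ⟨fun _ => 0, differentiableOn_const _⟩ (fun m y => ⟨F m y, hF1 m y⟩) m
  let d : ℕ → ℂ → X := fun m z => (y m).1 z - g m z - A B z ((y (m + 1)).1 z)
  have hd1 : ∀ m, ∀ z ∈ U, ‖d m z‖ ≤ (1 / 6) ^ m := fun m z hz => hF2 m (y m) z hz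
  have hd2 : ∀ m, DifferentiableOn ℂ (d m) U := fun m =>
    (((y m).2.sub (hg m)).sub ((by simpa using (A_diff B 1).differentiableOn :
      DifferentiableOn ℂ (A B) W).clm_apply (y (m + 1)).2)).mono hUW
  have hb : ∀ n k, ∀ z ∈ U, ‖(A B z ^ k) (d (n + k) z)‖ ≤ (1 / 2) ^ k := fun n k z hz => by
    have a1 : ‖A B z‖ ≤ 3 := by
      refine (norm_sub_le _ _).trans ?_
      have : ‖z • (1 : X →L[ℂ] X)‖ ≤ 2 := by
        rw [norm_smul]
        have := mul_le_mul (hU2 z hz) (ContinuousLinearMap.norm_id_le (𝕜 := ℂ) (E := X))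
          (norm_nonneg _) (by norm_num)
        rw [mul_one] at this; exact this
      linarith
    refine (npow a1 k _).trans ?_
    have a2 : ‖d (n + k) z‖ ≤ (1 / 6) ^ k :=
      (hd1 _ z hz).trans (pow_le_pow_of_le_one (by norm_num) (by norm_num) (by omega))
    calc _ ≤ 3 ^ k * (1 / 6 : ℝ) ^ k := mul_le_mul_of_nonneg_left a2 (by positivity)
      _ = _ := by rw [← mul_pow]; norm_num
  have hs : ∀ n, ∀ z ∈ U, Summable fun k => (A B z ^ k) (d (n + k) z) := fun n z hz =>
    Summable.of_norm_bounded summable_geometric_two fun k => hb n k z hz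
  refine ⟨fun n z => (y n).1 z - ∑' k, (A B z ^ k) (d (n + k) z), fun n =>
    ((y n).2.mono hUW).sub (differentiableOn_tsum_of_summable_norm summable_geometric_two
      (fun k => (A_diff B k).differentiableOn.clm_apply (hd2 _)) hU fun k z hz => hb n k z hz),
    fun n z hz => ?_⟩
  simp only
  rw [map_sub, (A B z).map_tsum (hs (n + 1) z hz), (hs n z hz).tsum_eq_zero_add]
  have e : ∀ k, A B z ((A B z ^ k) (d (n + 1 + k) z)) = (A B z ^ (k + 1)) (d (n + (k + 1)) z) :=
    fun k => by rw [pow_succ', ContinuousLinearMap.mul_apply, add_assoc, add_comm 1]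
  simp only [e, pow_zero, ContinuousLinearMap.one_apply, add_zero, d]
  abel

include hB in
theorem obs (e : X) (he : e ≠ 0) (hBe : B e = 0) (f : ℕ → ℂ → X)
    (hf : ∀ n, DifferentiableOn ℂ (f n) (ball 0 2))
    (h : ∀ n, ∀ z ∈ ball (0 : ℂ) 2, f n z - A B z (f (n + 1) z) = (3 : ℂ) ^ n • e) : False := by
  have hsub : closedBall (0 : ℂ) (3 / 2) ⊆ ball 0 2 := closedBall_subset_ball (by norm_num)
  have hsp : sphere (0 : ℂ) (3 / 2) ⊆ ball 0 2 := sphere_subset_closedBall.trans hsub
  obtain ⟨M, hM⟩ := (isCompact_sphere (0 : ℂ) (3 / 2)).exists_bound_of_continuousOn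
    ((hf 0).continuousOn.mono hsp)
  let q : ℕ → ℂ → ℂ := fun n z => ∑ k ∈ Finset.range n, 3 ^ k * (z - 0) ^ ((k : ℤ) - n)
  have h1 : ∀ n, ∀ z ∈ sphere (0 : ℂ) (3 / 2), ‖f n z + q n z • e‖ ≤ 2 ^ n * M := by
    intro n z hz
    have hz1 : ‖z‖ = 3 / 2 := by simpa using hz
    have hz0 : z ≠ 0 := fun h => by rw [h] at hz1; norm_num at hz1
    induction n with
    | zero => simpa [q] using hM z hz
    | succ n ih =>
      have e1 : z * q (n + 1) z = q n z + 3 ^ n := by
        simp only [q, sub_zero, Finset.mul_sum, Finset.sum_range_succ, mul_add]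
        congr 1
        · refine Finset.sum_congr rfl fun k _ => ?_
          rw [mul_left_comm, ← zpow_one_add₀ hz0]; congr 2; push_cast; ring
        · rw [mul_left_comm, ← zpow_one_add₀ hz0]; push_cast
          rw [show (1 : ℤ) + (n - (n + 1)) = 0 by ring]; simp
      have e2 : A B z (f (n + 1) z + q (n + 1) z • e) = f n z + q n z • e := by
        rw [map_add, map_smul, A_apply B z e, hBe, sub_zero, smul_smul, mul_comm, e1, add_smul,
          ← h n z (hsp hz)]
        abel
      set v := f (n + 1) z + q (n + 1) z • e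
      have e3 := B.le_of_opNorm_le hB v
      have e4 := norm_sub_norm_le (z • v) (B v)
      rw [← A_apply, e2, norm_smul, hz1] at e4
      rw [pow_succ]; linarith
  have hc0 : ∀ (a : ℂ) (m : ℤ), ContinuousOn (fun z : ℂ => a * (z - 0) ^ m) (sphere 0 (3 / 2)) :=
    fun a m => continuousOn_const.mul ((continuousOn_id.sub continuousOn_const).zpow₀ m
      fun z hz => Or.inl fun h => by
        have hz1 : ‖z‖ = 3 / 2 := by simpa using hz
        have : z = 0 := by simpa using h
        rw [this] at hz1; norm_num at hz1)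
  have hc : ∀ (a : ℂ) (m : ℤ), CircleIntegrable (fun z : ℂ => a * (z - 0) ^ m) 0 (3 / 2) :=
    fun a m => (hc0 a m).circleIntegrable (by norm_num)
  have h2 : ∀ n, (∮ z in C(0, 3 / 2), (f (n + 1) z + q (n + 1) z • e)) =
      (3 ^ n * (2 * Real.pi * I)) • e := fun n => by
    have c2 : CircleIntegrable (fun z => q (n + 1) z • e) 0 (3 / 2) :=
      ((continuousOn_finsetSum _ fun k _ => hc0 _ _).smul continuousOn_const).circleIntegrable
        (by norm_num)
    rw [circleIntegral.integral_add (((hf _).continuousOn.mono hsp).circleIntegrable (by norm_num)) c2,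
      circleIntegral_eq_zero_of_differentiable_on_off_countable (by norm_num) countable_empty
        ((hf _).continuousOn.mono hsub) (fun z hz => (hf _).differentiableAt
          (isOpen_ball.mem_nhds (hsub (ball_subset_closedBall hz.1)))), zero_add,
      circleIntegral.integral_smul_const]
    congr 1
    simp only [q]
    rw [circleIntegral.integral_fun_sum fun k _ => hc _ _, Finset.sum_range_succ,
      Finset.sum_eq_zero, zero_add, circleIntegral.integral_const_mul]
    · push_cast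
      rw [show (n : ℤ) - (n + 1) = -1 by ring]
      simp only [zpow_neg_one]
      rw [circleIntegral.integral_sub_inv_of_mem_ball (mem_ball_self (by norm_num))]
    · intro k hk
      have := Finset.mem_range.1 hk
      rw [circleIntegral.integral_const_mul, circleIntegral.integral_sub_zpow_of_ne (by omega),
        mul_zero]
  have h3 : ∀ n : ℕ, (3 / 2 : ℝ) ^ n ≤ 3 * M / ‖e‖ := fun n => by
    have a1 := circleIntegral.norm_integral_le_of_norm_le_const (by norm_num) (h1 (n + 1))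
    rw [h2, norm_smul] at a1
    simp only [norm_mul, norm_pow, Complex.norm_ofNat, Complex.norm_real, norm_I, mul_one,
      Real.norm_of_nonneg Real.pi_pos.le] at a1
    rw [le_div_iff₀ (norm_pos_iff.2 he), div_pow, div_mul_eq_mul_div, div_le_iff₀ (by positivity)]
    rw [pow_succ] at a1
    have := Real.pi_pos
    nlinarith
  obtain ⟨n, hn⟩ := pow_unbounded_of_one_lt (3 * M / ‖e‖) (by norm_num : (1 : ℝ) < 3 / 2)
  linarith [h3 n]

end

abbrev L : Type := lp (fun _ : ℕ => ℂ) 1

theorem hs (x : L) : HasSum (fun i => ‖x i‖) ‖x‖ := by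
  simpa using lp.hasSum_norm (p := 1) (by simp) x

theorem mem1 {f : ℕ → ℂ} (h : Summable fun i => ‖f i‖) : Memℓp f 1 :=
  memℓp_gen (by simpa using h)

noncomputable def Bk (k : ℕ) : L →L[ℂ] L :=
  LinearMap.mkContinuous
    { toFun := fun x => ⟨fun i => x (i + k), mem1 ((summable_nat_add_iff k).2 (hs x).summable)⟩
      map_add' := fun _ _ => rfl
      map_smul' := fun _ _ => rfl } 1 fun x => by
    rw [one_mul, ← (hs _).tsum_eq, ← (hs x).tsum_eq, ← (hs x).summable.sum_add_tsum_nat_add k]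
    exact le_add_of_nonneg_left (Finset.sum_nonneg fun _ _ => norm_nonneg _)

def sf (x : ℕ → ℂ) : ℕ → ℂ := fun i => Nat.casesOn i 0 x

noncomputable def Sh : L →L[ℂ] L :=
  LinearMap.mkContinuous
    { toFun := fun x => ⟨sf x, mem1 ((summable_nat_add_iff 1).1 (hs x).summable)⟩
      map_add' := fun _ _ => lp.ext (funext fun i => by
        cases i
        · exact (add_zero _).symm
        · rfl)
      map_smul' := fun _ _ => lp.ext (funext fun i => by cases i <;> simp [sf]) } 1 fun x => by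
    rw [one_mul, ← (hs _).tsum_eq, ← (hs x).tsum_eq, (hs _).summable.tsum_eq_zero_add]
    simp [sf]

theorem B_pow (m : ℕ) : Bk 1 ^ m = Bk m := by
  induction m with
  | zero => rfl
  | succ m ih => rw [pow_succ, ih]; rfl

theorem B_lim (x : L) : Tendsto (fun m => (Bk 1 ^ m) x) atTop (𝓝 0) := by
  rw [tendsto_zero_iff_norm_tendsto_zero]
  refine (tendsto_sum_nat_add fun i => ‖x i‖).congr fun m => ?_
  rw [B_pow, ← (hs _).tsum_eq]; rfl

theorem B_norm : ‖Bk 1‖ ≤ 1 := LinearMap.mkContinuous_norm_le _ zero_le_one _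
theorem S_norm : ‖Sh‖ ≤ 1 := LinearMap.mkContinuous_norm_le _ zero_le_one _
theorem BS1 : Bk 1 * Sh = 1 := rfl

end Pool.Agent.H.MP_bc0aea_an
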